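import Pool.Agent.Helper96.MP.Defs

set_option autoImplicit false

namespace Pool.Agent.Helper96.MP

open Complex MeasureTheory Filter Topology
open scoped MatrixGroups

theorem test_open : IsOpen UH := isOpen_lt continuous_const Complex.continuous_im

theorem test_det (g : SL(2, ℤ)) : g 0 0 * g 1 1 - g 0 1 * g 1 0 = 1 := by
  have h := g.2
  rw [Matrix.det_fin_two] at h
  exact h

theorem test_jj_ne (g : SL(2, ℤ)) {z : ℂ} (hz : z ∈ UH) : jj g z ≠ 0 := by
  intro h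
  have hz' : 0 < z.im := hz
  have h1 : (jj g z).im = (g 1 0 : ℤ) * z.im := by
    simp [jj]
  have h2 : (jj g z).re = (g 1 0 : ℤ) * z.re + (g 1 1 : ℤ) := by
    simp [jj]
  rw [h] at h1 h2
  simp only [Complex.zero_im, Complex.zero_re] at h1 h2
  have h3 : ((g 1 0 : ℤ) : ℝ) = 0 := by
    rcases mul_eq_zero.1 h1.symm with h | h
    · exact h
    · exact absurd h hz'.ne'
  rw [h3] at h2
  have h4 : ((g 1 1 : ℤ) : ℝ) = 0 := by linarith
  have h5 := test_det g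
  have h6 : (g 1 0 : ℤ) = 0 := by exact_mod_cast h3
  have h7 : (g 1 1 : ℤ) = 0 := by exact_mod_cast h4
  rw [h6, h7] at h5
  simp at h5

theorem test_mob_eq (g : SL(2, ℤ)) (z : ℂ) :
    mob g z = (((g 0 0 : ℤ) : ℂ) * z + ((g 0 1 : ℤ) : ℂ)) / jj g z := rfl

theorem test_im (g : SL(2, ℤ)) {z : ℂ} (hz : z ∈ UH) :
    (mob g z).im = z.im / ‖jj g z‖ ^ 2 := by
  have hj := test_jj_ne g hz
  have hn : (0 : ℝ) < ‖jj g z‖ ^ 2 := by positivity
  have h1 : ‖jj g z‖ ^ 2 = (jj g z).re * (jj g z).re + (jj g z).im * (jj g z).im := by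
    rw [← Complex.normSq_eq_norm_sq, Complex.normSq_apply]
  rw [test_mob_eq, Complex.div_im, Complex.normSq_eq_norm_sq]
  have h2 : (jj g z).im = (g 1 0 : ℤ) * z.im := by simp [jj]
  have h3 : (jj g z).re = (g 1 0 : ℤ) * z.re + (g 1 1 : ℤ) := by simp [jj]
  have h5 : ((g 0 0 : ℤ) : ℝ) * (g 1 1 : ℤ) - (g 0 1 : ℤ) * (g 1 0 : ℤ) = 1 := by
    exact_mod_cast test_det g
  rw [← sub_div, h2, h3]
  congr 1
  have h6 : ((((g 0 0 : ℤ) : ℂ) * z + ((g 0 1 : ℤ) : ℂ))).im = (g 0 0 : ℤ) * z.im := by simp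
  have h7 : ((((g 0 0 : ℤ) : ℂ) * z + ((g 0 1 : ℤ) : ℂ))).re = (g 0 0 : ℤ) * z.re + (g 0 1 : ℤ) := by
    simp
  rw [h6, h7]
  linear_combination z.im * h5

theorem test_mem (g : SL(2, ℤ)) {z : ℂ} (hz : z ∈ UH) : mob g z ∈ UH := by
  have hj := test_jj_ne g hz
  have hz' : 0 < z.im := hz
  show 0 < (mob g z).im
  rw [test_im g hz]
  positivity

theorem test_deriv (g : SL(2, ℤ)) {z : ℂ} (hz : z ∈ UH) :
    HasDerivAt (mob g) ((jj g z ^ 2)⁻¹) z := by
  have hj := test_jj_ne g hz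
  have h1 : HasDerivAt (fun z : ℂ => ((g 0 0 : ℤ) : ℂ) * z + ((g 0 1 : ℤ) : ℂ)) ((g 0 0 : ℤ) : ℂ) z := by
    simpa using ((hasDerivAt_id z).const_mul ((g 0 0 : ℤ) : ℂ)).add_const ((g 0 1 : ℤ) : ℂ)
  have h2 : HasDerivAt (fun z : ℂ => jj g z) ((g 1 0 : ℤ) : ℂ) z := by
    simpa [jj] using ((hasDerivAt_id z).const_mul ((g 1 0 : ℤ) : ℂ)).add_const ((g 1 1 : ℤ) : ℂ)
  have h3 := h1.div h2 hj
  have h5 : ((g 0 0 : ℤ) : ℂ) * (g 1 1 : ℤ) - (g 0 1 : ℤ) * (g 1 0 : ℤ) = 1 := by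
    exact_mod_cast test_det g
  have h4 : (((g 0 0 : ℤ) : ℂ) * jj g z - (((g 0 0 : ℤ) : ℂ) * z + ((g 0 1 : ℤ) : ℂ)) * ((g 1 0 : ℤ) : ℂ)) = 1 := by
    unfold jj
    linear_combination h5
  rw [h4, one_div] at h3
  exact h3

theorem test_mul (g h : SL(2, ℤ)) {z : ℂ} (hz : z ∈ UH) : mob (g * h) z = mob g (mob h z) := by
  have hj := test_jj_ne h hz
  have hj2 := test_jj_ne g (test_mem h hz)
  have hj3 := test_jj_ne (g * h) hz
  have e : ∀ i j : Fin 2, ((g * h) i j : ℤ) = g i 0 * h 0 j + g i 1 * h 1 j := by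
    intro i j
    rw [Matrix.SpecialLinearGroup.coe_mul, Matrix.mul_apply, Fin.sum_univ_two]
  have hm : mob h z * jj h z = ((h 0 0 : ℤ) : ℂ) * z + ((h 0 1 : ℤ) : ℂ) := by
    rw [test_mob_eq, div_mul_cancel₀ _ hj]
  have hjh : jj h z = ((h 1 0 : ℤ) : ℂ) * z + ((h 1 1 : ℤ) : ℂ) := rfl
  have hk : jj g (mob h z) * jj h z = jj (g * h) z := by
    have h1 : jj g (mob h z) = ((g 1 0 : ℤ) : ℂ) * mob h z + ((g 1 1 : ℤ) : ℂ) := rfl
    have h2 : jj (g * h) z = (((g * h) 1 0 : ℤ) : ℂ) * z + (((g * h) 1 1 : ℤ) : ℂ) := rfl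
    rw [h1, h2, e, e]
    push_cast
    linear_combination ((g 1 0 : ℤ) : ℂ) * hm + ((g 1 1 : ℤ) : ℂ) * hjh
  have hn : (((g 0 0 : ℤ) : ℂ) * mob h z + ((g 0 1 : ℤ) : ℂ)) * jj h z
      = (((g * h) 0 0 : ℤ) : ℂ) * z + (((g * h) 0 1 : ℤ) : ℂ) := by
    rw [e, e]
    push_cast
    linear_combination ((g 0 0 : ℤ) : ℂ) * hm + ((g 0 1 : ℤ) : ℂ) * hjh
  rw [test_mob_eq g, test_mob_eq (g * h), ← hn, ← hk, mul_div_mul_right _ _ hj]

theorem test_cont (g : SL(2, ℤ)) : ContinuousOn (mob g) UH := fun _ hz =>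
  (test_deriv g hz).continuousAt.continuousWithinAt

/-- only finitely many elements move a compact set to meet itself -/
theorem test_finite {K : Set ℂ} (hK : IsCompact K) (hKU : K ⊆ UH) :
    {g : SL(2, ℤ) | ∃ z ∈ K, mob g z ∈ K}.Finite := by
  rcases K.eq_empty_or_nonempty with rfl | hne
  · simp
  obtain ⟨R, hR⟩ := hK.exists_bound_of_continuousOn (f := fun z : ℂ => z) continuousOn_id
  obtain ⟨z0, hz0, hmin⟩ := hK.exists_isMinOn hne Complex.continuous_im.continuousOn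
  set ε := z0.im with hε
  have hεp : 0 < ε := hKU hz0
  have hmin' : ∀ z ∈ K, ε ≤ z.im := fun z hz => hmin hz
  have hRp : 0 < R := by
    have := hR z0 hz0
    have h1 : |z0.im| ≤ ‖z0‖ := Complex.abs_im_le_norm z0
    rw [abs_of_pos hεp] at h1
    linarith
  -- bound
  set Q := Real.sqrt (R / ε) with hQ
  have hQ0 : 0 ≤ Q := Real.sqrt_nonneg _
  obtain ⟨B, hB⟩ := exists_nat_ge (max (max (Q / ε) (Q + Q / ε * R)) (max (R * Q / ε) (R * Q + R * Q / ε * R)))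
  have hbox : {g : SL(2, ℤ) | ∃ z ∈ K, mob g z ∈ K} ⊆
      (fun g : SL(2, ℤ) => ((g 0 0, g 0 1), (g 1 0, g 1 1))) ⁻¹'
        ((Set.Icc (-(B : ℤ)) B ×ˢ Set.Icc (-(B : ℤ)) B) ×ˢ (Set.Icc (-(B : ℤ)) B ×ˢ Set.Icc (-(B : ℤ)) B)) := by
    rintro g ⟨z, hz, hgz⟩
    have hzU := hKU hz
    have hzp : 0 < z.im := hzU
    have hj := test_jj_ne g hzU
    have hjp : 0 < ‖jj g z‖ := norm_pos_iff.2 hj
    have h1 : ‖jj g z‖ ^ 2 ≤ R / ε := by
      have h2 := hmin' _ hgz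
      rw [test_im g hzU, le_div_iff₀ (by positivity)] at h2
      rw [le_div_iff₀ hεp]
      have h3 : z.im ≤ R := (le_abs_self _).trans ((Complex.abs_im_le_norm z).trans (hR z hz))
      nlinarith
    have hjQ : ‖jj g z‖ ≤ Q := Real.le_sqrt_of_sq_le h1
    have hc : |((g 1 0 : ℤ) : ℝ)| ≤ Q / ε := by
      rw [le_div_iff₀ hεp]
      have h2 : |(jj g z).im| ≤ ‖jj g z‖ := Complex.abs_im_le_norm _
      have h3 : (jj g z).im = (g 1 0 : ℤ) * z.im := by simp [jj]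
      rw [h3, abs_mul, abs_of_pos hzp] at h2
      have h4 := hmin' z hz
      have h5 := abs_nonneg ((g 1 0 : ℤ) : ℝ)
      nlinarith
    have hd : |((g 1 1 : ℤ) : ℝ)| ≤ Q + Q / ε * R := by
      have h2 : ((g 1 1 : ℤ) : ℂ) = jj g z - ((g 1 0 : ℤ) : ℂ) * z := by unfold jj; ring
      have h3 : ‖((g 1 1 : ℤ) : ℂ)‖ = |((g 1 1 : ℤ) : ℝ)| := by
        rw [Complex.norm_intCast]
      have h4 : ‖((g 1 0 : ℤ) : ℂ)‖ = |((g 1 0 : ℤ) : ℝ)| := by
        rw [Complex.norm_intCast]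
      rw [← h3, h2]
      refine (norm_sub_le _ _).trans ?_
      rw [norm_mul, h4]
      have h5 := hR z hz
      have h6 : 0 ≤ Q / ε := by positivity
      have h7 : |((g 1 0 : ℤ) : ℝ)| * ‖z‖ ≤ Q / ε * R :=
        mul_le_mul hc h5 (norm_nonneg _) h6
      linarith
    have hnum : ‖((g 0 0 : ℤ) : ℂ) * z + ((g 0 1 : ℤ) : ℂ)‖ ≤ R * Q := by
      have h2 : ((g 0 0 : ℤ) : ℂ) * z + ((g 0 1 : ℤ) : ℂ) = mob g z * jj g z := by
        rw [test_mob_eq, div_mul_cancel₀ _ hj]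
      rw [h2, norm_mul]
      exact mul_le_mul (hR _ hgz) hjQ (norm_nonneg _) hRp.le
    have ha : |((g 0 0 : ℤ) : ℝ)| ≤ R * Q / ε := by
      rw [le_div_iff₀ hεp]
      have h2 := (Complex.abs_im_le_norm (((g 0 0 : ℤ) : ℂ) * z + ((g 0 1 : ℤ) : ℂ))).trans hnum
      have h3 : (((g 0 0 : ℤ) : ℂ) * z + ((g 0 1 : ℤ) : ℂ)).im = (g 0 0 : ℤ) * z.im := by simp
      rw [h3, abs_mul, abs_of_pos hzp] at h2
      have h4 := hmin' z hz
      have h5 := abs_nonneg ((g 0 0 : ℤ) : ℝ)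
      nlinarith
    have hb : |((g 0 1 : ℤ) : ℝ)| ≤ R * Q + R * Q / ε * R := by
      have h2 : ((g 0 1 : ℤ) : ℂ) = (((g 0 0 : ℤ) : ℂ) * z + ((g 0 1 : ℤ) : ℂ)) - ((g 0 0 : ℤ) : ℂ) * z := by ring
      have h3 : ‖((g 0 1 : ℤ) : ℂ)‖ = |((g 0 1 : ℤ) : ℝ)| := by
        rw [Complex.norm_intCast]
      have h4 : ‖((g 0 0 : ℤ) : ℂ)‖ = |((g 0 0 : ℤ) : ℝ)| := by
        rw [Complex.norm_intCast]
      rw [← h3, h2]
      refine (norm_sub_le _ _).trans ?_
      rw [norm_mul, h4]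
      have h5 := hR z hz
      have h6 : 0 ≤ R * Q / ε := by positivity
      have h7 : |((g 0 0 : ℤ) : ℝ)| * ‖z‖ ≤ R * Q / ε * R :=
        mul_le_mul ha h5 (norm_nonneg _) h6
      linarith
    have hB1 : Q / ε ≤ B := (le_max_left _ _).trans ((le_max_left _ _).trans hB)
    have hB2 : Q + Q / ε * R ≤ B := (le_max_right _ _).trans ((le_max_left _ _).trans hB)
    have hB3 : R * Q / ε ≤ B := (le_max_left _ _).trans ((le_max_right _ _).trans hB)
    have hB4 : R * Q + R * Q / ε * R ≤ B := (le_max_right _ _).trans ((le_max_right _ _).trans hB)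
    have key : ∀ x : ℤ, |(x : ℝ)| ≤ B → x ∈ Set.Icc (-(B : ℤ)) B := by
      intro x hx
      rw [abs_le] at hx
      constructor
      · have := hx.1
        exact_mod_cast this
      · have := hx.2
        exact_mod_cast this
    exact ⟨⟨key _ (ha.trans hB3), key _ (hb.trans hB4)⟩, ⟨key _ (hc.trans hB1), key _ (hd.trans hB2)⟩⟩
  refine Set.Finite.subset (Set.Finite.preimage ?_ ?_) hbox
  · intro g _ h _ hgh
    simp only [Prod.mk.injEq] at hgh
    ext i j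
    fin_cases i <;> fin_cases j
    · exact hgh.1.1
    · exact hgh.1.2
    · exact hgh.2.1
    · exact hgh.2.2
  · exact ((Set.finite_Icc _ _).prod (Set.finite_Icc _ _)).prod
      ((Set.finite_Icc _ _).prod (Set.finite_Icc _ _))

theorem test_contDiffAt (g : SL(2, ℤ)) {z : ℂ} (hz : z ∈ UH) (n : ℕ∞) :
    ContDiffAt ℝ n (mob g) z := by
  have hj := test_jj_ne g hz
  have h : ContDiffAt ℂ n (fun z : ℂ => (((g 0 0 : ℤ) : ℂ) * z + ((g 0 1 : ℤ) : ℂ)) /
      (((g 1 0 : ℤ) : ℂ) * z + ((g 1 1 : ℤ) : ℂ))) z := by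
    apply ContDiffAt.div
    · exact (contDiffAt_const.mul contDiffAt_id).add contDiffAt_const
    · exact (contDiffAt_const.mul contDiffAt_id).add contDiffAt_const
    · exact hj
  exact h.restrict_scalars ℝ

theorem test_lin (L : ℂ →L[ℝ] ℝ) (w : ℂ) : L w = w.re * L 1 + w.im * L I := by
  have h : w = w.re • (1 : ℂ) + w.im • I := by
    apply Complex.ext <;> simp
  conv_lhs => rw [h]
  rw [map_add, map_smul, map_smul, smul_eq_mul, smul_eq_mul]

theorem test_comp (g : SL(2, ℤ)) {z : ℂ} (hz : z ∈ UH) (f : ℂ → ℝ)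
    (hf : DifferentiableAt ℝ f (mob g z)) (v : ℂ) :
    fderiv ℝ (fun w => f (mob g w)) z v = fderiv ℝ f (mob g z) ((jj g z ^ 2)⁻¹ * v) := by
  have h1 := (test_deriv g hz).complexToReal_fderiv
  have h2 := hf.hasFDerivAt.comp z h1
  have h3 : fderiv ℝ (fun w => f (mob g w)) z = _ := h2.fderiv
  rw [h3]
  simp

theorem test_DDcomp (g : SL(2, ℤ)) {z : ℂ} (hz : z ∈ UH) (f k : ℂ → ℝ)
    (hf : DifferentiableAt ℝ f (mob g z)) (hk : DifferentiableAt ℝ k (mob g z)) :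
    DD (fun w => f (mob g w)) (fun w => k (mob g w)) z
      = DD f k (mob g z) * (‖jj g z‖ ^ 4)⁻¹ := by
  have hj := test_jj_ne g hz
  set lam : ℂ := (jj g z ^ 2)⁻¹ with hlam
  have h1 : lam.re * lam.re + lam.im * lam.im = (‖jj g z‖ ^ 4)⁻¹ := by
    rw [← Complex.normSq_apply, Complex.normSq_eq_norm_sq, hlam, norm_inv, norm_pow, inv_pow]
    congr 1
    ring
  have h2 : (lam * I).re = - lam.im := by simp
  have h3 : (lam * I).im = lam.re := by simp
  unfold DD ux uy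
  rw [test_comp g hz f hf, test_comp g hz k hk, test_comp g hz f hf, test_comp g hz k hk, mul_one,
    test_lin _ lam, test_lin _ (lam * I), test_lin (fderiv ℝ k (mob g z)) lam,
    test_lin (fderiv ℝ k (mob g z)) (lam * I), h2, h3, ← h1]
  ring

/-- local finiteness -/
theorem test_local (N : ℕ) {a : ℂ → ℝ} (ha : HasCompactSupport a) (haU : tsupport a ⊆ UH) {z0 : ℂ}
    (hz0 : z0 ∈ UH) : ∃ O : Set ℂ, IsOpen O ∧ z0 ∈ O ∧ O ⊆ UH ∧
      ∃ F : Finset (CongruenceSubgroup.Gamma0 N), ∀ z ∈ O, ∀ g : CongruenceSubgroup.Gamma0 N,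
        g ∉ F → mob g.1 z ∉ tsupport a := by
  obtain ⟨r, hr, hrU⟩ := Metric.nhds_basis_closedBall.mem_iff.1 (test_open.mem_nhds hz0)
  have hK : IsCompact (Metric.closedBall z0 r ∪ tsupport a) :=
    (isCompact_closedBall z0 r).union ha
  have hKU : Metric.closedBall z0 r ∪ tsupport a ⊆ UH := Set.union_subset hrU haU
  have hfin := test_finite hK hKU
  have hfin2 : {g : CongruenceSubgroup.Gamma0 N | ∃ z ∈ Metric.closedBall z0 r ∪ tsupport a,
      mob g.1 z ∈ Metric.closedBall z0 r ∪ tsupport a}.Finite := by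
    have h := Set.Finite.preimage (f := fun g : CongruenceSubgroup.Gamma0 N => g.1)
      (Set.injOn_of_injective Subtype.val_injective) hfin
    exact h
  refine ⟨Metric.ball z0 r, Metric.isOpen_ball, Metric.mem_ball_self hr,
    Metric.ball_subset_closedBall.trans hrU, hfin2.toFinset, ?_⟩
  intro z hz g hg hmem
  apply hg
  rw [Set.Finite.mem_toFinset]
  exact ⟨z, Or.inl (Metric.ball_subset_closedBall hz), Or.inr hmem⟩

theorem test_a_zero {a : ℂ → ℝ} {z : ℂ} (hz : z ∉ tsupport a) : a z = 0 := image_eq_zero_of_notMem_tsupport hz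

theorem test_DD_zero {u a : ℂ → ℝ} {z : ℂ} (hz : z ∉ tsupport a) : DD u a z = 0 := by
  have h : fderiv ℝ a z = 0 := by
    have h1 : a =ᶠ[𝓝 z] fun _ => (0 : ℝ) := by
      have : (tsupport a)ᶜ ∈ 𝓝 z := (isClosed_tsupport a).isOpen_compl.mem_nhds hz
      filter_upwards [this] with w hw
      exact test_a_zero hw
    rw [h1.fderiv_eq]
    simp
  unfold DD ux uy
  rw [h]
  simp

/-- the periodization -/
noncomputable def test_per (N : ℕ) (a : ℂ → ℝ) (z : ℂ) : ℝ :=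
  ∑' g : CongruenceSubgroup.Gamma0 N, a (mob g.1 z)

theorem test_per_local (N : ℕ) {a : ℂ → ℝ} {O : Set ℂ}
    {F : Finset (CongruenceSubgroup.Gamma0 N)} (hF : ∀ z ∈ O, ∀ g : CongruenceSubgroup.Gamma0 N,
        g ∉ F → mob g.1 z ∉ tsupport a) {z : ℂ} (hz : z ∈ O) :
    test_per N a z = ∑ g ∈ F, a (mob g.1 z) := by
  unfold test_per
  exact tsum_eq_sum (fun g hg => test_a_zero (hF z hz g hg))

theorem test_smooth (N : ℕ) {a : ℂ → ℝ} (hs : ContDiff ℝ (⊤ : ℕ∞) a) (ha : HasCompactSupport a)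
    (haU : tsupport a ⊆ UH) : ContDiffOn ℝ (⊤ : ℕ∞) (test_per N a) UH := by
  intro z0 hz0
  obtain ⟨O, hO, hzO, hOU, F, hF⟩ := test_local N ha haU hz0
  apply ContDiffAt.contDiffWithinAt
  have h1 : test_per N a =ᶠ[𝓝 z0] fun z => ∑ g ∈ F, a (mob g.1 z) := by
    filter_upwards [hO.mem_nhds hzO] with z hz
    exact test_per_local N hF hz
  refine ContDiffAt.congr_of_eventuallyEq ?_ h1
  apply ContDiffAt.sum
  intro g _
  exact hs.contDiffAt.comp z0 (test_contDiffAt g.1 hz0 _)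

theorem test_eqv (N : ℕ) (a : ℂ → ℝ) (h : SL(2, ℤ)) (hh : h ∈ CongruenceSubgroup.Gamma0 N) {z : ℂ}
    (hz : z ∈ UH) : test_per N a (mob h z) = test_per N a z := by
  unfold test_per
  rw [← (Equiv.mulRight (⟨h, hh⟩ : CongruenceSubgroup.Gamma0 N)).tsum_eq
    (fun g : CongruenceSubgroup.Gamma0 N => a (mob g.1 z))]
  apply tsum_congr
  intro g
  rw [Equiv.coe_mulRight]
  have h1 : ((g * (⟨h, hh⟩ : CongruenceSubgroup.Gamma0 N) : CongruenceSubgroup.Gamma0 N) : SL(2, ℤ))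
      = g.1 * h := rfl
  rw [h1, test_mul g.1 h hz]

theorem test_diffAt {u : ℂ → ℝ} (hu : ContDiffOn ℝ (⊤ : ℕ∞) u UH) {z : ℂ} (hz : z ∈ UH) :
    DifferentiableAt ℝ u z :=
  ((hu z hz).contDiffAt (test_open.mem_nhds hz)).differentiableAt (by simp)

theorem test_key (N : ℕ) {a u : ℂ → ℝ} (ρ : SL(2, ℤ) → ℝ) (hu : ContDiffOn ℝ (⊤ : ℕ∞) u UH)
    (he : ∀ g ∈ CongruenceSubgroup.Gamma0 N, ∀ z ∈ UH, u (mob g z) = u z + ρ g)
    (hs : ContDiff ℝ (⊤ : ℕ∞) a) (ha : HasCompactSupport a) (haU : tsupport a ⊆ UH) {z : ℂ}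
    (hz : z ∈ UH) :
    ∑' g : CongruenceSubgroup.Gamma0 N, DD u a (mob g.1 z) * (‖jj g.1 z‖ ^ 4)⁻¹
      = DD u (test_per N a) z := by
  obtain ⟨O, hO, hzO, hOU, F, hF⟩ := test_local N ha haU hz
  have had : Differentiable ℝ a := hs.differentiable (by simp)
  have h1 : test_per N a =ᶠ[𝓝 z] fun z => ∑ g ∈ F, a (mob g.1 z) := by
    filter_upwards [hO.mem_nhds hzO] with w hw
    exact test_per_local N hF hw
  have hda : ∀ g : CongruenceSubgroup.Gamma0 N, DifferentiableAt ℝ (fun w => a (mob g.1 w)) z := by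
    intro g
    exact (had _).comp z ((test_contDiffAt g.1 hz (⊤ : ℕ∞)).differentiableAt (by simp))
  have h2 : fderiv ℝ (test_per N a) z = ∑ g ∈ F, fderiv ℝ (fun w => a (mob g.1 w)) z := by
    rw [h1.fderiv_eq]
    exact fderiv_fun_sum (fun g _ => hda g)
  have h3 : DD u (test_per N a) z = ∑ g ∈ F, DD u (fun w => a (mob g.1 w)) z := by
    unfold DD ux uy
    rw [h2, _root_.ContinuousLinearMap.sum_apply, _root_.ContinuousLinearMap.sum_apply, Finset.mul_sum,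
      Finset.mul_sum, ← Finset.sum_add_distrib]
  rw [h3, tsum_eq_sum (s := F)]
  · apply Finset.sum_congr rfl
    intro g _
    have h4 : DD u (fun w => a (mob g.1 w)) z
        = DD (fun w => u (mob g.1 w)) (fun w => a (mob g.1 w)) z := by
      have h5 : fderiv ℝ (fun w => u (mob g.1 w)) z = fderiv ℝ u z := by
        have h6 : (fun w => u (mob g.1 w)) =ᶠ[𝓝 z] fun w => u w + ρ g.1 := by
          filter_upwards [test_open.mem_nhds hz] with w hw
          exact he g.1 g.2 w hw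
        rw [h6.fderiv_eq, fderiv_add_const]
      unfold DD ux uy
      rw [h5]
    rw [h4, test_DDcomp g.1 hz u a (test_diffAt hu (test_mem g.1 hz)) (had _)]
  · intro g hg
    rw [test_DD_zero (hF z hzO g hg), zero_mul]

theorem test_contDD {a u : ℂ → ℝ} (hu : ContDiffOn ℝ (⊤ : ℕ∞) u UH)
    (hs : ContDiff ℝ (⊤ : ℕ∞) a) (haU : tsupport a ⊆ UH) : Continuous (DD u a) := by
  have h1 : ContinuousOn (fderiv ℝ u) UH := hu.continuousOn_fderiv_of_isOpen test_open (by simp)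
  have h2 : Continuous (fderiv ℝ a) := hs.continuous_fderiv (by simp)
  have h3 : ContinuousOn (DD u a) UH := by
    unfold DD ux uy
    apply ContinuousOn.add
    · exact (h1.clm_apply continuousOn_const).mul (h2.continuousOn.clm_apply continuousOn_const)
    · exact (h1.clm_apply continuousOn_const).mul (h2.continuousOn.clm_apply continuousOn_const)
  rw [continuous_iff_continuousAt]
  intro z
  by_cases hz : z ∈ tsupport a
  · exact h3.continuousAt (test_open.mem_nhds (haU hz))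
  · have h4 : DD u a =ᶠ[𝓝 z] fun _ => (0 : ℝ) := by
      filter_upwards [(isClosed_tsupport a).isOpen_compl.mem_nhds hz] with w hw
      exact test_DD_zero hw
    exact (continuousAt_const).congr h4.symm

theorem test_unf (h1 : ST_UNF) (N : ℕ) (W : ℂ → ℝ) {a u : ℂ → ℝ} (ρ : SL(2, ℤ) → ℝ) (hN : 1 ≤ N)
    (hW : WOK N W) (hu : ContDiffOn ℝ (⊤ : ℕ∞) u UH)
    (he : ∀ g ∈ CongruenceSubgroup.Gamma0 N, ∀ z ∈ UH, u (mob g z) = u z + ρ g)
    (hs : ContDiff ℝ (⊤ : ℕ∞) a) (ha : HasCompactSupport a) (haU : tsupport a ⊆ UH) :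
    IntegrableOn (fun z => W z * DD u (test_per N a) z) UH ∧
      ∫ z in UH, W z * DD u (test_per N a) z = ∫ z in UH, DD u a z := by
  have hsupp : Function.support (DD u a) ⊆ tsupport a := by
    intro z hz
    by_contra h
    exact hz (test_DD_zero h)
  have hc : HasCompactSupport (DD u a) := ha.mono' hsupp
  have hU : tsupport (DD u a) ⊆ UH := (closure_minimal hsupp (isClosed_tsupport a)).trans haU
  obtain ⟨h2, h3⟩ := h1 N W (DD u a) hN hW (test_contDD hu hs haU) hc hU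
  have h4 : Set.EqOn (fun z => W z * ∑' g : CongruenceSubgroup.Gamma0 N,
      DD u a (mob g.1 z) * (‖jj g.1 z‖ ^ 4)⁻¹) (fun z => W z * DD u (test_per N a) z) UH := by
    intro z hz
    show W z * _ = W z * _
    rw [test_key N ρ hu he hs ha haU hz]
  constructor
  · exact h2.congr_fun h4 test_open.measurableSet
  · rw [← h3]
    exact (setIntegral_congr_fun test_open.measurableSet h4).symm

theorem st_TEST (h1 : ST_UNF) : ST_TEST := by
  intro N W ρ u a hN hW hu hs ha haU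
  have hsm := test_smooth N hs ha haU
  have heq : ∀ g ∈ CongruenceSubgroup.Gamma0 N, ∀ z ∈ UH,
      test_per N a (mob g z) = test_per N a z + (fun _ : SL(2, ℤ) => (0 : ℝ)) g := by
    intro g hg z hz
    rw [test_eqv N a g hg hz]
    simp
  have h2 := test_unf h1 N W ρ hN hW hu.smooth hu.eqv hs ha haU
  have h3 := test_unf h1 N W (fun _ => 0) hN hW hsm heq hs ha haU
  exact ⟨⟨hsm, heq, h3.1⟩, h2.2⟩

end Pool.Agent.Helper96.MP
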