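import Pool.Agent.Helper96.MP.Defs

set_option autoImplicit false

namespace Pool.Agent.Helper96.MP

theorem surj_uni {N : ℕ} {c d : ℤ} : Uni N c d ↔
    ∀ p : ℕ, p.Prime → (p : ℤ) ∣ c → (p : ℤ) ∣ d → ¬ p ∣ N := by
  unfold Uni
  constructor
  · intro h p hp hc hd hN
    have h1 : (p : ℤ) ∣ (Int.gcd c d : ℤ) := Int.dvd_coe_gcd hc hd
    have h2 : p ∣ Int.gcd (Int.gcd c d) N := by
      have h3 : (p : ℤ) ∣ (Int.gcd ((Int.gcd c d : ℕ) : ℤ) (N : ℤ) : ℤ) :=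
        Int.dvd_coe_gcd h1 (by exact_mod_cast hN)
      exact_mod_cast h3
    rw [h] at h2
    exact hp.one_lt.ne' (Nat.dvd_one.1 h2)
  · intro h
    by_contra h1
    obtain ⟨p, hp, hpd⟩ := Nat.exists_prime_and_dvd h1
    have h2 : (p : ℤ) ∣ (Int.gcd ((Int.gcd c d : ℕ) : ℤ) (N : ℤ) : ℤ) := by exact_mod_cast hpd
    have h3 : (p : ℤ) ∣ ((Int.gcd c d : ℕ) : ℤ) := h2.trans (Int.gcd_dvd_left _ _)
    have h4 : (p : ℤ) ∣ (N : ℤ) := h2.trans (Int.gcd_dvd_right _ _)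
    exact h p hp (h3.trans (Int.gcd_dvd_left _ _)) (h3.trans (Int.gcd_dvd_right _ _))
      (by exact_mod_cast h4)

theorem surj_a0 {N : ℕ} {c d : ℤ} (hc : c ≠ 0) (h : Uni N c d) :
    ∃ k : ℤ, IsCoprime c (d + k * N) := by
  classical
  rw [surj_uni] at h
  set S := c.natAbs.primeFactors.filter (fun p => ¬ p ∣ N ∧ ¬ (p : ℤ) ∣ d) with hS
  refine ⟨∏ p ∈ S, (p : ℤ), ?_⟩
  rw [Int.isCoprime_iff_gcd_eq_one]
  apply Nat.coprime_of_dvd
  intro p hp hpc hpd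
  have hpc' : (p : ℤ) ∣ c := Int.natCast_dvd.2 hpc
  have hpd' : (p : ℤ) ∣ d + (∏ p ∈ S, (p : ℤ)) * N := Int.natCast_dvd.2 hpd
  have hpZ : Prime (p : ℤ) := Nat.prime_iff_prime_int.1 hp
  have hcn : c.natAbs ≠ 0 := Int.natAbs_ne_zero.2 hc
  by_cases hN : p ∣ N
  · have h1 : (p : ℤ) ∣ (∏ p ∈ S, (p : ℤ)) * N := Dvd.dvd.mul_left (by exact_mod_cast hN) _
    have h2 : (p : ℤ) ∣ d := (dvd_add_left h1).1 hpd'
    exact h p hp hpc' h2 hN
  · by_cases hd : (p : ℤ) ∣ d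
    · have h1 : (p : ℤ) ∣ (∏ p ∈ S, (p : ℤ)) * N := (dvd_add_right hd).1 hpd'
      rcases hpZ.dvd_or_dvd h1 with h2 | h2
      · obtain ⟨q, hq, hpq⟩ := (hpZ.dvd_finset_prod_iff _).1 h2
        rw [hS, Finset.mem_filter] at hq
        have hqp : q.Prime := Nat.prime_of_mem_primeFactors hq.1
        have h3 : p = q := (Nat.prime_dvd_prime_iff_eq hp hqp).1 (by exact_mod_cast hpq)
        rw [h3] at hd
        exact hq.2.2 hd
      · exact hN (by exact_mod_cast h2)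
    · have hmem : p ∈ S := by
        rw [hS, Finset.mem_filter]
        exact ⟨Nat.mem_primeFactors.2 ⟨hp, hpc, hcn⟩, hN, hd⟩
      have h1 : (p : ℤ) ∣ (∏ p ∈ S, (p : ℤ)) * N :=
        Dvd.dvd.mul_right (Finset.dvd_prod_of_mem (fun p : ℕ => (p : ℤ)) hmem) _
      exact hd ((dvd_add_left h1).1 hpd')

theorem surj_a {N : ℕ} (hN : 1 ≤ N) {c d : ℤ} (h : Uni N c d) :
    ∃ c' d' : ℤ, IsCoprime c' d' ∧ (N : ℤ) ∣ c' - c ∧ (N : ℤ) ∣ d' - d := by
  by_cases hc : c = 0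
  · have h1 : Uni N (N : ℤ) d := by
      rw [surj_uni] at h ⊢
      intro p hp h1 h2
      exact h p hp (by rw [hc]; exact dvd_zero _) h2
    obtain ⟨k, hk⟩ := surj_a0 (by exact_mod_cast (show N ≠ 0 by omega)) h1
    exact ⟨N, d + k * N, hk, by rw [hc]; simp, by simp⟩
  · obtain ⟨k, hk⟩ := surj_a0 hc h
    exact ⟨c, d + k * N, hk, by simp, by simp⟩

theorem st_SURJ : ST_SURJ := by
  intro N hN
  refine ⟨fun c d h => surj_a hN h, ?_⟩
  intro p q r s h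
  have hU : Uni N r s := by
    rw [surj_uni]
    intro l hl hr hs hlN
    have h1 : (l : ℤ) ∣ p * s - q * r - 1 := (show (l : ℤ) ∣ (N : ℤ) by exact_mod_cast hlN).trans h
    have h2 : (l : ℤ) ∣ p * s - q * r := dvd_sub (Dvd.dvd.mul_left hs p) (Dvd.dvd.mul_left hr q)
    have h3 : (l : ℤ) ∣ 1 := by
      have := dvd_sub h2 h1
      simpa using this
    have h4 : l ∣ 1 := by exact_mod_cast h3
    exact hl.one_lt.ne' (Nat.dvd_one.1 h4)
  obtain ⟨r', s', hco, hr', hs'⟩ := surj_a hN hU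
  obtain ⟨a, b, hab⟩ := hco
  -- `a * r' + b * s' = 1`
  set u := b with hu
  set v := -a with hv
  have huv : u * s' - v * r' = 1 := by rw [hu, hv]; linarith
  refine ⟨u + (u * q - v * p) * r', v + (u * q - v * p) * s', r', s', ?_, ?_, ?_, hr', hs'⟩
  · linear_combination huv
  · rw [← ZMod.intCast_zmod_eq_zero_iff_dvd] at h hr' hs' ⊢
    have h1 : (u : ZMod N) * s' - v * r' - 1 = 0 := by
      have : ((u * s' - v * r' : ℤ) : ZMod N) = ((1 : ℤ) : ZMod N) := by rw [huv]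
      push_cast at this
      rw [this, sub_self]
    push_cast at h hr' hs' ⊢
    linear_combination (p : ZMod N) * h1 - (p : ZMod N) * u * hs' + (u : ZMod N) * q * hr' - (u : ZMod N) * h
  · rw [← ZMod.intCast_zmod_eq_zero_iff_dvd] at h hr' hs' ⊢
    have h1 : (u : ZMod N) * s' - v * r' - 1 = 0 := by
      have : ((u * s' - v * r' : ℤ) : ZMod N) = ((1 : ℤ) : ZMod N) := by rw [huv]
      push_cast at this
      rw [this, sub_self]
    push_cast at h hr' hs' ⊢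
    linear_combination (q : ZMod N) * h1 + (q : ZMod N) * v * hr' - (v : ZMod N) * h - (v : ZMod N) * p * hs'

end Pool.Agent.Helper96.MP
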